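import Pool.Agent.Helper73.SM.GoalsK

/-!
# Project KR (MP_c307ca_nt), packet KPR: every good fraction is a Pade approximant
-/

set_option autoImplicit false
set_option maxHeartbeats 400000

namespace Pool.Agent.Helper48.SM

open Finset Pool.Agent.Helper73.SM

theorem logK_bound {K : ℝ} (hK : 72 ≤ K) : Real.log 4 < Real.log K :=
  Real.log_lt_log (by norm_num) (by linarith)

/-- the exponent is small -/
theorem exponent_smallK {K x : ℝ} (hK : 72 ≤ K) (hx : K ^ 2 ≤ x) {R : ℝ} (hR : 0 < R)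
    (hRe : R ≤ Real.exp (Real.log x ^ 2 / (4 * Real.log K))) (m : ℕ)
    (hm : x / 4 * (x / K) ^ m ≤ R) :
    K ^ (2 * (m + 1)) ≤ x := by
  have hK0 : 0 < K := by linarith
  have hx0 : 0 < x := lt_of_lt_of_le (by positivity) hx
  have hl4 := logK_bound hK
  have h40 : 0 ≤ Real.log 4 := Real.log_nonneg (by norm_num)
  have hκ : 0 < Real.log K := by linarith
  have hL : 2 * Real.log K ≤ Real.log x := by
    have h1 : Real.log (K ^ 2) ≤ Real.log x := Real.log_le_log (by positivity) hx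
    rw [Real.log_pow] at h1
    push_cast at h1
    exact h1
  have h5 : Real.log x - Real.log 4 + m * (Real.log x - Real.log K) ≤
      Real.log x ^ 2 / (4 * Real.log K) := by
    have h6 : Real.log (x / 4 * (x / K) ^ m) ≤ Real.log R := Real.log_le_log (by positivity) hm
    rw [Real.log_mul (by positivity) (by positivity), Real.log_pow,
      Real.log_div hx0.ne' (by norm_num), Real.log_div hx0.ne' hK0.ne'] at h6
    have h7 : Real.log R ≤ Real.log x ^ 2 / (4 * Real.log K) := by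
      rw [Real.log_le_iff_le_exp hR]
      exact hRe
    linarith
  have h8 : 2 * ((m : ℝ) + 1) * Real.log K ≤ Real.log x := by
    by_contra hcon
    rw [not_le] at hcon
    obtain ⟨L, hLL⟩ : ∃ L : ℝ, L = Real.log x := ⟨_, rfl⟩
    obtain ⟨κ, hκκ⟩ : ∃ κ : ℝ, κ = Real.log K := ⟨_, rfl⟩
    rw [← hLL, ← hκκ] at h5 hcon hL
    rw [← hκκ] at hκ hl4
    rw [le_div_iff₀ (by linarith)] at h5
    have h9 : 0 < L - κ := by linarith
    have h10 : (L - 2 * κ) * (L - κ) < 2 * m * κ * (L - κ) :=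
      mul_lt_mul_of_pos_right (by linarith) h9
    -- 4κ (L - log 4) + 4κ m (L - κ) ≤ L²
    have h11 : 2 * ((L - 2 * κ) * (L - κ)) + 4 * κ * (L - Real.log 4) < L ^ 2 := by nlinarith
    have h12 : L ^ 2 < 2 * κ * L := by nlinarith
    have h13 : L < 2 * κ := by
      by_contra hc
      rw [not_lt] at hc
      have : 0 < L := by linarith
      nlinarith
    linarith
  have h14 : Real.log (K ^ (2 * (m + 1))) ≤ Real.log x := by
    rw [Real.log_pow]
    push_cast
    linarith
  exact (Real.log_le_log_iff (by positivity) hx0).mp h14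

theorem goalKPR (hKSZ : StmtKSZ) : Pool.Agent.Helper73.SM.StmtKPR := by
  intro k m K hOk hkK
  obtain ⟨hk3, hm1, hmk, _⟩ := hOk
  have hk3' : (3 : ℝ) ≤ k := by exact_mod_cast hk3
  have hK : (72 : ℝ) ≤ K := by nlinarith
  have hK0 : 0 < K := by linarith
  refine ⟨⌈K ^ 2⌉₊ + 2, by omega, ?_⟩
  intro N hN c P R hc hc16 hR hRe hlt
  have hN2 : 2 ≤ N := le_trans (by omega) hN
  obtain ⟨x, hx⟩ : ∃ x : ℝ, x = (N : ℝ) := ⟨_, rfl⟩
  have hxK : K ^ 2 ≤ x := by
    have h1 : K ^ 2 ≤ (⌈K ^ 2⌉₊ : ℝ) := Nat.le_ceil _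
    have h2 : ((⌈K ^ 2⌉₊ + 2 : ℕ) : ℝ) ≤ N := by exact_mod_cast hN
    push_cast at h2
    rw [hx]; linarith
  have hx0 : 0 < x := lt_of_lt_of_le (by positivity) hxK
  have hx2 : 2 ≤ x := by nlinarith
  have hR1 : (1 : ℝ) ≤ R := by exact_mod_cast hR
  have hR0 : (0 : ℝ) < R := by linarith
  rw [← hx] at hRe hlt
  -- the least exponent
  have hex : ∃ n : ℕ, (R : ℝ) < x / 4 * (x / K) ^ n := by
    have h1 : 1 < x / K := by
      rw [lt_div_iff₀ hK0]
      nlinarith
    obtain ⟨n, hn⟩ := pow_unbounded_of_one_lt ((R : ℝ) / (x / 4)) h1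
    refine ⟨n, ?_⟩
    rw [div_lt_iff₀ (by positivity)] at hn
    linarith
  classical
  obtain ⟨n, hn⟩ : ∃ n : ℕ, n = Nat.find hex := ⟨_, rfl⟩
  have hn1 : (R : ℝ) < x / 4 * (x / K) ^ n := by
    rw [hn]; exact Nat.find_spec hex
  have hn2 : ∀ j, j < n → x / 4 * (x / K) ^ j ≤ R := by
    intro j hj
    rw [hn] at hj
    exact not_lt.mp (Nat.find_min hex hj)
  -- the size of the exponent
  have hsize : K ^ (2 * n) ≤ x := by
    rcases Nat.eq_zero_or_pos n with h0 | h0
    · rw [h0, mul_zero, pow_zero]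
      linarith
    · obtain ⟨j, rfl⟩ : ∃ j, n = j + 1 := ⟨n - 1, by omega⟩
      exact exponent_smallK hK hxK hR0 hRe j (hn2 j (by omega))
  refine ⟨n, by rw [← hx]; exact hsize, ?_⟩
  have hqpos := hKSZ.pos k m n N hm1 hmk hN2
  have hqle := hKSZ.le k m n N hm1 hmk hN2
  have hrem := hKSZ.rem k m n N hm1 hmk hN2
  rw [← hx] at hqle hrem
  obtain ⟨q, hq⟩ : ∃ q : ℤ, q = PK k (-(m : ℤ)) n (N : ℤ) := ⟨_, rfl⟩
  obtain ⟨p, hp⟩ : ∃ p : ℤ, p = PK k (m : ℤ) n (N : ℤ) := ⟨_, rfl⟩
  obtain ⟨ξ, hξ⟩ : ∃ ξ : ℝ, ξ = xk k m N := ⟨_, rfl⟩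
  rw [← hq] at hqpos hqle hrem ⊢
  rw [← hp] at hrem ⊢
  rw [← hξ] at hrem hlt
  have hqle' : (q : ℝ) ≤ (K * x) ^ n := by
    refine hqle.trans ?_
    apply pow_le_pow_left₀ (by positivity)
    exact mul_le_mul_of_nonneg_right hkK hx0.le
  have hrem' : |(p : ℝ) - ξ * q| ≤ 2 / x * (K / x) ^ n := by
    refine hrem.trans ?_
    apply mul_le_mul_of_nonneg_left _ (by positivity)
    apply pow_le_pow_left₀ (by positivity)
    exact div_le_div_of_nonneg_right hkK hx0.le
  have hq1 : (1 : ℝ) ≤ q := by exact_mod_cast hqpos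
  obtain ⟨D, hD⟩ : ∃ D : ℝ, D = |(P : ℝ) - ξ * R| := ⟨_, rfl⟩
  rw [← hD] at hlt
  have hD0 : 0 ≤ D := by rw [hD]; exact abs_nonneg _
  -- first part
  have hA : (q : ℝ) * D < 1 / 2 := by
    have h1 : (q : ℝ) * D ≤ (K * x) ^ n * D := mul_le_mul_of_nonneg_right hqle' hD0
    refine lt_of_le_of_lt h1 ?_
    rcases Nat.eq_zero_or_pos n with h0 | h0
    · rw [h0, pow_zero, one_mul]
      have h2 : D ≤ R * D := by nlinarith
      have h3 : c / x ≤ 1 / 32 := by
        rw [div_le_iff₀ hx0]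
        linarith
      linarith
    · obtain ⟨j, rfl⟩ : ∃ j, n = j + 1 := ⟨n - 1, by omega⟩
      have h2 := hn2 j (by omega)
      obtain ⟨a, haa⟩ : ∃ a : ℝ, a = K ^ j := ⟨_, rfl⟩
      obtain ⟨y, hyy⟩ : ∃ y : ℝ, y = x ^ j := ⟨_, rfl⟩
      have ha : 0 < a := by rw [haa]; positivity
      have hy : 0 < y := by rw [hyy]; positivity
      have hs : K ^ 2 * a ^ 2 ≤ x := by
        have : K ^ (2 * (j + 1)) = K ^ 2 * a ^ 2 := by
          rw [haa]
          ring
        linarith
      rw [div_pow, ← haa, ← hyy] at h2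
      have h3 : (K * x) ^ (j + 1) = K * x * a * y := by
        rw [pow_succ, mul_pow, ← haa, ← hyy]
        ring
      rw [h3]
      have h4 : x * y ≤ 4 * a * R := by
        have h5 : x / 4 * (y / a) = x * y / (4 * a) := by
          field_simp
        rw [h5, div_le_iff₀ (by positivity)] at h2
        linarith
      -- R D < c / x
      have h9 : x * (R * D) < c := by
        rw [lt_div_iff₀ hx0] at hlt
        linarith
      -- conclusion
      by_contra hcon
      rw [not_lt] at hcon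
      have h10 : 1 / 2 * R ≤ K * x * a * y * D * R := mul_le_mul_of_nonneg_right hcon hR0.le
      have h11 : K * x * a * y * D * R ≤ K * a * y * c := by
        have : K * x * a * y * D * R = K * a * y * (x * (R * D)) := by ring
        rw [this]
        exact mul_le_mul_of_nonneg_left h9.le (by positivity)
      have h12 : K * a * y * c ≤ K * a * y * (1 / 16) :=
        mul_le_mul_of_nonneg_left hc16 (by positivity)
      have h13 : (R : ℝ) ≤ K * a * y / 8 := by linarith
      have h14 : x * y ≤ 4 * a * (K * a * y / 8) :=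
        h4.trans (mul_le_mul_of_nonneg_left h13 (by positivity))
      have h15 : x * y ≤ (K * a ^ 2 / 2) * y := by
        have : 4 * a * (K * a * y / 8) = (K * a ^ 2 / 2) * y := by ring
        rwa [this] at h14
      have h16 : x ≤ K * a ^ 2 / 2 := le_of_mul_le_mul_right h15 hy
      have h17 : 0 < a ^ 2 := by positivity
      have h18 : K * a ^ 2 < K ^ 2 * a ^ 2 := by
        have : K < K ^ 2 := by nlinarith
        exact mul_lt_mul_of_pos_right this h17
      have h19 : 0 < K * a ^ 2 := by positivity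
      linarith
  -- second part
  have hB : (R : ℝ) * |(p : ℝ) - ξ * q| < 1 / 2 := by
    have h1 : (R : ℝ) * |(p : ℝ) - ξ * q| ≤ R * (2 / x * (K / x) ^ n) :=
      mul_le_mul_of_nonneg_left hrem' hR0.le
    refine lt_of_le_of_lt h1 ?_
    have h2 : (K / x) ^ n * (x / K) ^ n = 1 := by
      rw [← mul_pow]
      rw [show K / x * (x / K) = 1 by field_simp]
      exact one_pow n
    have h3 : 0 < (K / x) ^ n := by positivity
    have h4 : (R : ℝ) * (2 / x * (K / x) ^ n) < x / 4 * (x / K) ^ n * (2 / x * (K / x) ^ n) :=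
      mul_lt_mul_of_pos_right hn1 (by positivity)
    have h5 : x / 4 * (x / K) ^ n * (2 / x * (K / x) ^ n) = 1 / 2 := by
      calc x / 4 * (x / K) ^ n * (2 / x * (K / x) ^ n)
          = (x / 4 * (2 / x)) * ((K / x) ^ n * (x / K) ^ n) := by ring
        _ = 1 / 2 := by rw [h2]; field_simp; norm_num
    linarith
  -- the integer
  have hC : |(P : ℝ) * q - R * p| < 1 := by
    have h1 : (P : ℝ) * q - R * p = q * (P - ξ * R) - R * (p - ξ * q) := by ring
    rw [h1]
    refine lt_of_le_of_lt (abs_sub _ _) ?_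
    rw [abs_mul, abs_mul, abs_of_pos (by linarith : (0 : ℝ) < q), abs_of_pos hR0, ← hD]
    linarith
  have hZ : |P * q - (R : ℤ) * p| < 1 := by
    have : ((|P * q - (R : ℤ) * p| : ℤ) : ℝ) < 1 := by
      push_cast
      exact hC
    exact_mod_cast this
  have := Int.abs_lt_one_iff.mp hZ
  linarith

end Pool.Agent.Helper48.SM
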