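import Pool.Agent.Helper73.SM.Goals

/-!
# Project SM, packet SQ (one denominator)
-/

set_option autoImplicit false
set_option maxHeartbeats 400000

namespace Pool.Agent.Helper48.SM

open Finset Pool.Agent.Helper73.SM

/-- Number of integers in an interval of radius `r`. -/
theorem cardI (H : ℕ) (c r : ℝ) (hr : 0 ≤ r) :
    (((Icc (-(H : ℤ)) H).filter (fun b : ℤ => |(b : ℝ) - c| ≤ r)).card : ℝ) ≤ 2 * r + 1 := by
  classical
  have hsub : ((Icc (-(H : ℤ)) H).filter (fun b : ℤ => |(b : ℝ) - c| ≤ r)) ⊆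
      Icc ⌈c - r⌉ ⌊c + r⌋ := by
    intro b hb
    rw [mem_filter] at hb
    obtain ⟨_, hb⟩ := hb
    rw [abs_le] at hb
    rw [mem_Icc]
    exact ⟨Int.ceil_le.mpr (by linarith), Int.le_floor.mpr (by linarith)⟩
  have h1 := card_le_card hsub
  rw [Int.card_Icc] at h1
  have h2 : (((Icc (-(H : ℤ)) H).filter (fun b : ℤ => |(b : ℝ) - c| ≤ r)).card : ℝ) ≤
      ((⌊c + r⌋ + 1 - ⌈c - r⌉).toNat : ℝ) := by exact_mod_cast h1
  refine h2.trans ?_
  rcases le_total 0 (⌊c + r⌋ + 1 - ⌈c - r⌉) with h | h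
  · have h3 : (((⌊c + r⌋ + 1 - ⌈c - r⌉).toNat : ℤ) : ℝ) = ((⌊c + r⌋ + 1 - ⌈c - r⌉ : ℤ) : ℝ) := by
      rw [Int.toNat_of_nonneg h]
    have h4 : (((⌊c + r⌋ + 1 - ⌈c - r⌉).toNat : ℕ) : ℝ) =
        ((⌊c + r⌋ + 1 - ⌈c - r⌉ : ℤ) : ℝ) := by
      rw [← h3]; norm_cast
    rw [h4]
    push_cast
    have h5 := Int.floor_le (c + r)
    have h6 := Int.le_ceil (c - r)
    linarith
  · rw [Int.toNat_of_nonpos h]
    simp only [Nat.cast_zero]
    linarith

theorem cardI0 (H : ℕ) : ((Icc (-(H : ℤ)) H).card : ℝ) = 2 * H + 1 := by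
  rw [Int.card_Icc]
  have : ((H : ℤ) + 1 - (-(H : ℤ))).toNat = 2 * H + 1 := by omega
  rw [this]
  push_cast
  ring

/-- Number of integer vectors with a linear form in an interval. -/
theorem cardV (H : ℕ) (ξ c r : ℝ) (hr : 0 ≤ r) :
    ((((Icc (-(H : ℤ)) H) ×ˢ (Icc (-(H : ℤ)) H)).filter
      (fun v : ℤ × ℤ => |lf ξ v - c| ≤ r)).card : ℝ) ≤ (2 * H + 1) * (2 * r + 1) := by
  classical
  have h1 : ((((Icc (-(H : ℤ)) H) ×ˢ (Icc (-(H : ℤ)) H)).filter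
      (fun v : ℤ × ℤ => |lf ξ v - c| ≤ r)).card) =
      ∑ a ∈ Icc (-(H : ℤ)) H, ((Icc (-(H : ℤ)) H).filter
        (fun b : ℤ => |lf ξ (a, b) - c| ≤ r)).card := by
    rw [card_filter, sum_product]
    refine sum_congr rfl (fun a _ => ?_)
    rw [card_filter]
  rw [h1]
  push_cast
  calc ∑ a ∈ Icc (-(H : ℤ)) H, (((Icc (-(H : ℤ)) H).filter
        (fun b : ℤ => |lf ξ (a, b) - c| ≤ r)).card : ℝ)
      ≤ ∑ a ∈ Icc (-(H : ℤ)) H, (2 * r + 1) := by
        refine sum_le_sum (fun a _ => ?_)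
        have h2 := cardI H (c - a * ξ) r hr
        have h3 : ((Icc (-(H : ℤ)) H).filter (fun b : ℤ => |lf ξ (a, b) - c| ≤ r)) =
            ((Icc (-(H : ℤ)) H).filter (fun b : ℤ => |(b : ℝ) - (c - a * ξ)| ≤ r)) := by
          refine filter_congr (fun b _ => ?_)
          have : lf ξ (a, b) - c = (b : ℝ) - (c - a * ξ) := by
            unfold lf; ring
          rw [this]
        rw [h3]
        exact h2
    _ = (2 * H + 1) * (2 * r + 1) := by
        rw [sum_const, nsmul_eq_mul, cardI0]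

/-- Matrices for one `p`. -/
theorem cardG (H : ℕ) (ξ s ρ Y : ℝ) (hρ : 0 ≤ ρ) (hY : 0 ≤ Y) :
    (((Helper73.SM.box H).filter (fun g : Mat => |lf ξ g.2| ≤ Y ∧
      |lf ξ g.1 - s * lf ξ g.2| ≤ ρ * |lf ξ g.2|)).card : ℝ) ≤
      ((2 * H + 1) * (2 * Y + 1)) * ((2 * H + 1) * (2 * (ρ * Y) + 1)) := by
  classical
  set A : Finset (ℤ × ℤ) := (Icc (-(H : ℤ)) H) ×ˢ (Icc (-(H : ℤ)) H) with hA
  have h1 : (((Helper73.SM.box H).filter (fun g : Mat => |lf ξ g.2| ≤ Y ∧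
      |lf ξ g.1 - s * lf ξ g.2| ≤ ρ * |lf ξ g.2|)).card) ≤
      ∑ v ∈ A.filter (fun v => |lf ξ v - 0| ≤ Y), (A.filter
        (fun u => |lf ξ u - s * lf ξ v| ≤ ρ * Y)).card := by
    have h2 : ((Helper73.SM.box H).filter (fun g : Mat => |lf ξ g.2| ≤ Y ∧
      |lf ξ g.1 - s * lf ξ g.2| ≤ ρ * |lf ξ g.2|)) ⊆
      (A.filter (fun v => |lf ξ v - 0| ≤ Y)).biUnion (fun v => (A.filter
        (fun u => |lf ξ u - s * lf ξ v| ≤ ρ * Y)).image (fun u => (u, v))) := by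
      intro g hg
      rw [mem_filter] at hg
      obtain ⟨hg1, hg2, hg3⟩ := hg
      unfold Helper73.SM.box at hg1
      rw [mem_product] at hg1
      rw [mem_biUnion]
      refine ⟨g.2, ?_, ?_⟩
      · rw [mem_filter]
        refine ⟨hg1.2, ?_⟩
        rw [sub_zero]; exact hg2
      · rw [mem_image]
        refine ⟨g.1, ?_, rfl⟩
        rw [mem_filter]
        exact ⟨hg1.1, hg3.trans (mul_le_mul_of_nonneg_left hg2 hρ)⟩
    refine (card_le_card h2).trans (card_biUnion_le.trans ?_)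
    exact sum_le_sum (fun v _ => card_image_le)
  have h1' : (((Helper73.SM.box H).filter (fun g : Mat => |lf ξ g.2| ≤ Y ∧
      |lf ξ g.1 - s * lf ξ g.2| ≤ ρ * |lf ξ g.2|)).card : ℝ) ≤
      ∑ v ∈ A.filter (fun v => |lf ξ v - 0| ≤ Y), ((A.filter
        (fun u => |lf ξ u - s * lf ξ v| ≤ ρ * Y)).card : ℝ) := by exact_mod_cast h1
  refine h1'.trans ?_
  calc ∑ v ∈ A.filter (fun v => |lf ξ v - 0| ≤ Y), ((A.filter
        (fun u => |lf ξ u - s * lf ξ v| ≤ ρ * Y)).card : ℝ)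
      ≤ ∑ v ∈ A.filter (fun v => |lf ξ v - 0| ≤ Y), (2 * H + 1) * (2 * (ρ * Y) + 1) :=
        sum_le_sum (fun v _ => cardV H ξ _ _ (mul_nonneg hρ hY))
    _ = ((A.filter (fun v => |lf ξ v - 0| ≤ Y)).card : ℝ) *
          ((2 * H + 1) * (2 * (ρ * Y) + 1)) := by rw [sum_const, nsmul_eq_mul]
    _ ≤ _ := by
        refine mul_le_mul_of_nonneg_right (cardV H ξ 0 Y hY) ?_
        have := mul_nonneg hρ hY
        positivity

/-- the bound for `|y|` -/
noncomputable def YY (H q k : ℕ) : ℝ := if k ≤ 4 * q then 3 * H else 12 * H * q / k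

theorem YY_nonneg (H q k : ℕ) : 0 ≤ YY H q k := by
  unfold YY; split_ifs <;> positivity

theorem YY_le (H q k : ℕ) : YY H q k ≤ 3 * H := by
  unfold YY
  split_ifs with h
  · exact le_rfl
  · have hk : (0 : ℝ) < k := by
      have : 0 < k := by omega
      exact_mod_cast this
    rw [div_le_iff₀ hk]
    have h1 : (4 * q : ℝ) ≤ k := by
      have : 4 * q ≤ k := by omega
      exact_mod_cast this
    have h2 : (0 : ℝ) ≤ H := by positivity
    nlinarith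

theorem sumYY1 (H q j : ℕ) (hq : 1 ≤ q) :
    ∑ k ∈ range (4 * q + 1 + j), YY H q k ^ 2 ≤
      9 * (H : ℝ) ^ 2 * (4 * q + 1) +
        144 * (H : ℝ) ^ 2 * (q : ℝ) ^ 2 * (1 / (4 * q) - 1 / (4 * q + j)) := by
  induction j with
  | zero =>
    have h1 : ∑ k ∈ range (4 * q + 1 + 0), YY H q k ^ 2 = ∑ k ∈ range (4 * q + 1),
        9 * (H : ℝ) ^ 2 := by
      rw [add_zero]
      refine sum_congr rfl (fun k hk => ?_)
      unfold YY
      rw [if_pos (by rw [mem_range] at hk; omega)]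
      ring
    rw [h1, sum_const, card_range, nsmul_eq_mul]
    push_cast
    rw [add_zero, sub_self]
    nlinarith
  | succ j ih =>
    rw [← add_assoc, sum_range_succ]
    have hk : YY H q (4 * q + 1 + j) = 12 * H * q / (4 * q + 1 + j) := by
      unfold YY
      rw [if_neg (by omega)]
      push_cast
      ring
    rw [hk]
    have hq' : (1 : ℝ) ≤ q := by exact_mod_cast hq
    have hj' : (0 : ℝ) ≤ j := by positivity
    have h2 : (12 * (H : ℝ) * q / (4 * q + 1 + j)) ^ 2 ≤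
        144 * (H : ℝ) ^ 2 * (q : ℝ) ^ 2 * (1 / (4 * q + j) - 1 / (4 * q + (j + 1))) := by
      have h3 : (12 * (H : ℝ) * q / (4 * q + 1 + j)) ^ 2 =
          144 * (H : ℝ) ^ 2 * (q : ℝ) ^ 2 * (1 / (4 * q + 1 + j) ^ 2) := by
        field_simp
        ring
      rw [h3]
      refine mul_le_mul_of_nonneg_left ?_ (by positivity)
      have h4 : (0 : ℝ) < 4 * q + j := by linarith
      have h5 : (1 : ℝ) / (4 * q + j) - 1 / (4 * q + (j + 1)) =
          1 / ((4 * q + j) * (4 * q + 1 + j)) := by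
        have h6 : (4 * (q : ℝ) + (j + 1)) ≠ 0 := by linarith
        have h7 : (4 * (q : ℝ) + 1 + j) ≠ 0 := by linarith
        field_simp
        ring
      rw [h5]
      apply one_div_le_one_div_of_le
      · positivity
      · nlinarith
    push_cast
    have h8 := ih
    nlinarith [h8, h2]

theorem sumYY (H q K : ℕ) (hq : 1 ≤ q) :
    ∑ k ∈ range K, YY H q k ^ 2 ≤ 81 * (H : ℝ) ^ 2 * q := by
  have h1 : ∑ k ∈ range K, YY H q k ^ 2 ≤ ∑ k ∈ range (4 * q + 1 + K), YY H q k ^ 2 := by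
    refine sum_le_sum_of_subset_of_nonneg (range_subset_range.mpr (by omega)) ?_
    intro i _ _
    positivity
  refine h1.trans ((sumYY1 H q K hq).trans ?_)
  have hq' : (1 : ℝ) ≤ q := by exact_mod_cast hq
  have h2 : (0 : ℝ) ≤ 1 / (4 * (q : ℝ) + K) := by positivity
  have h3 : 144 * (H : ℝ) ^ 2 * (q : ℝ) ^ 2 * (1 / (4 * q) - 1 / (4 * q + K)) ≤
      144 * (H : ℝ) ^ 2 * (q : ℝ) ^ 2 * (1 / (4 * q)) := by
    refine mul_le_mul_of_nonneg_left (by linarith) (by positivity)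
  have h4 : 144 * (H : ℝ) ^ 2 * (q : ℝ) ^ 2 * (1 / (4 * q)) = 36 * (H : ℝ) ^ 2 * q := by
    field_simp
    ring
  have h5 : (0 : ℝ) ≤ (H : ℝ) ^ 2 := by positivity
  nlinarith

/-- Sum over symmetric integer interval. -/
theorem sumSym (P : ℕ) (F : ℕ → ℝ) (hF : ∀ k, 0 ≤ F k) :
    ∑ p ∈ Icc (-(P : ℤ)) P, F p.natAbs ≤ 2 * ∑ k ∈ range (P + 1), F k := by
  classical
  have h1 : Icc (-(P : ℤ)) P ⊆ (range (P + 1)).image (fun k : ℕ => (k : ℤ)) ∪
      (range (P + 1)).image (fun k : ℕ => -(k : ℤ)) := by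
    intro p hp
    rw [mem_Icc] at hp
    rw [mem_union, mem_image, mem_image]
    rcases le_total 0 p with h | h
    · left
      refine ⟨p.natAbs, ?_, ?_⟩
      · rw [mem_range]; omega
      · omega
    · right
      refine ⟨p.natAbs, ?_, ?_⟩
      · rw [mem_range]; omega
      · omega
  have h2 : ∑ p ∈ Icc (-(P : ℤ)) P, F p.natAbs ≤
      ∑ p ∈ (range (P + 1)).image (fun k : ℕ => (k : ℤ)), F p.natAbs +
      ∑ p ∈ (range (P + 1)).image (fun k : ℕ => -(k : ℤ)), F p.natAbs := by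
    refine (sum_le_sum_of_subset_of_nonneg h1 (fun i _ _ => hF _)).trans ?_
    rw [← sum_union_inter]
    have : 0 ≤ ∑ p ∈ (range (P + 1)).image (fun k : ℕ => (k : ℤ)) ∩
      (range (P + 1)).image (fun k : ℕ => -(k : ℤ)), F p.natAbs := sum_nonneg (fun i _ => hF _)
    linarith
  refine h2.trans ?_
  rw [sum_image (by intro a _ b _ h; simpa using h), sum_image (by intro a _ b _ h; simpa using h)]
  simp only [Int.natAbs_natCast, Int.natAbs_neg]
  linarith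

theorem lf_le (H : ℕ) (ξ : ℝ) (hξ : |ξ| ≤ 2) (v : ℤ × ℤ)
    (hv : v ∈ (Icc (-(H : ℤ)) H) ×ˢ (Icc (-(H : ℤ)) H)) : |lf ξ v| ≤ 3 * H := by
  rw [mem_product, mem_Icc, mem_Icc] at hv
  obtain ⟨⟨h1, h2⟩, h3, h4⟩ := hv
  have h5 : |(v.1 : ℝ)| ≤ H := abs_le.mpr ⟨by exact_mod_cast h1, by exact_mod_cast h2⟩
  have h6 : |(v.2 : ℝ)| ≤ H := abs_le.mpr ⟨by exact_mod_cast h3, by exact_mod_cast h4⟩
  unfold lf
  have h7 := abs_add_le ((v.1 : ℝ) * ξ) (v.2 : ℝ)
  rw [abs_mul] at h7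
  have h8 : |(v.1 : ℝ)| * |ξ| ≤ H * 2 := mul_le_mul h5 hξ (abs_nonneg _) (by positivity)
  linarith

theorem goalSQ : Pool.Agent.Helper73.SM.StmtSQ := by
  classical
  intro ξ t ρ H q hξ hH ht hq hρ hρ2
  have hq' : (1 : ℝ) ≤ q := by exact_mod_cast hq
  have hH' : (1 : ℝ) ≤ H := by exact_mod_cast hH
  have hρ1 : ρ ≤ 3 / 4 := by
    refine hρ2.trans ?_
    apply div_le_div_of_nonneg_left (by norm_num) (by norm_num) (by linarith)
  set P : ℕ := ⌊2 * t * q⌋₊ with hP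
  have hPle : (P : ℝ) ≤ 2 * t * q := Nat.floor_le (by positivity)
  have hsub : ((Helper73.SM.box H).filter (fun g => lf ξ g.2 ≠ 0 ∧ |lf ξ g.1| ≤ t * |lf ξ g.2| ∧
      ∃ p : ℤ, |lf ξ g.1 / lf ξ g.2 - (p : ℝ) / (q : ℝ)| ≤ ρ)) ⊆
      (Icc (-(P : ℤ)) P).biUnion (fun p => (Helper73.SM.box H).filter (fun g : Mat =>
        |lf ξ g.2| ≤ YY H q p.natAbs ∧
        |lf ξ g.1 - (p : ℝ) / q * lf ξ g.2| ≤ ρ * |lf ξ g.2|)) := by
    intro g hg
    rw [mem_filter] at hg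
    obtain ⟨hgb, hy, hxy, p, hp⟩ := hg
    have hgb' := hgb
    unfold Helper73.SM.box at hgb'
    rw [mem_product] at hgb'
    have hx3 := lf_le H ξ hξ g.1 hgb'.1
    have hy3 := lf_le H ξ hξ g.2 hgb'.2
    have hyp : 0 < |lf ξ g.2| := abs_pos.mpr hy
    have hq0 : (0 : ℝ) < q := by linarith
    have hpq : |(p : ℝ) / q| = |(p : ℝ)| / q := by rw [abs_div, abs_of_pos hq0]
    have hr : |lf ξ g.1 / lf ξ g.2| ≤ t := by
      rw [abs_div, div_le_iff₀ hyp]; exact hxy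
    have hd := abs_le.mp hp
    -- |p|/q ≤ t + ρ
    have h1 : |(p : ℝ)| / q ≤ t + ρ := by
      rw [← hpq]
      have : (p : ℝ) / q = lf ξ g.1 / lf ξ g.2 - (lf ξ g.1 / lf ξ g.2 - (p : ℝ) / q) := by ring
      rw [this]
      refine (abs_sub _ _).trans ?_
      linarith
    have h2 : |(p : ℝ)| ≤ 2 * t * q := by
      rw [div_le_iff₀ hq0] at h1
      nlinarith
    have h3 : p.natAbs ≤ P := by
      rw [hP]
      apply Nat.le_floor
      rw [Nat.cast_natAbs]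
      push_cast
      exact h2
    rw [mem_biUnion]
    refine ⟨p, ?_, ?_⟩
    · rw [mem_Icc]; omega
    · rw [mem_filter]
      refine ⟨hgb, ?_, ?_⟩
      · unfold YY
        split_ifs with hc
        · exact hy3
        · have hp1 : (1 : ℝ) ≤ |(p : ℝ)| := by
            have : 1 ≤ |p| := by
              rw [Int.abs_eq_natAbs]; omega
            exact_mod_cast this
          have hnat : ((p.natAbs : ℕ) : ℝ) = |(p : ℝ)| := by
            rw [Nat.cast_natAbs]; push_cast; rfl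
          rw [hnat, le_div_iff₀ (by linarith)]
          -- |x/y| ≥ |p|/(4q)
          have h4 : |(p : ℝ)| / q - ρ ≤ |lf ξ g.1 / lf ξ g.2| := by
            rw [← hpq]
            have : (p : ℝ) / q = lf ξ g.1 / lf ξ g.2 -
              (lf ξ g.1 / lf ξ g.2 - (p : ℝ) / q) := by ring
            have h5 := abs_sub (lf ξ g.1 / lf ξ g.2) (lf ξ g.1 / lf ξ g.2 - (p : ℝ) / q)
            rw [← this] at h5
            linarith
          have h5 : |(p : ℝ)| / (4 * q) ≤ |lf ξ g.1 / lf ξ g.2| := by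
            refine le_trans ?_ h4
            have h6 : |(p : ℝ)| / (4 * q) + 3 / (4 * q) ≤ |(p : ℝ)| / q := by
              rw [← add_div, div_le_div_iff₀ (by positivity) hq0]
              nlinarith
            linarith
          rw [abs_div, le_div_iff₀ hyp, div_mul_eq_mul_div, div_le_iff₀ (by positivity)] at h5
          nlinarith
      · have h6 : lf ξ g.1 - (p : ℝ) / q * lf ξ g.2 =
            (lf ξ g.1 / lf ξ g.2 - (p : ℝ) / q) * lf ξ g.2 := by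
          field_simp
        rw [h6, abs_mul]
        exact mul_le_mul_of_nonneg_right hp (abs_nonneg _)
  have hcard := (card_le_card hsub).trans card_biUnion_le
  have hcard' : (((Helper73.SM.box H).filter (fun g => lf ξ g.2 ≠ 0 ∧ |lf ξ g.1| ≤ t * |lf ξ g.2| ∧
      ∃ p : ℤ, |lf ξ g.1 / lf ξ g.2 - (p : ℝ) / (q : ℝ)| ≤ ρ)).card : ℝ) ≤
      ∑ p ∈ Icc (-(P : ℤ)) P, (((Helper73.SM.box H).filter (fun g : Mat =>
        |lf ξ g.2| ≤ YY H q p.natAbs ∧
        |lf ξ g.1 - (p : ℝ) / q * lf ξ g.2| ≤ ρ * |lf ξ g.2|)).card : ℝ) := by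
    exact_mod_cast hcard
  refine hcard'.trans ?_
  have hterm : ∀ p ∈ Icc (-(P : ℤ)) P, (((Helper73.SM.box H).filter (fun g : Mat =>
        |lf ξ g.2| ≤ YY H q p.natAbs ∧
        |lf ξ g.1 - (p : ℝ) / q * lf ξ g.2| ≤ ρ * |lf ξ g.2|)).card : ℝ) ≤
      9 * (H : ℝ) ^ 2 * (4 * ρ * YY H q p.natAbs ^ 2 + 13 * H) := by
    intro p _
    refine (cardG H ξ _ ρ _ hρ (YY_nonneg H q _)).trans ?_
    set Y := YY H q p.natAbs with hY
    have hY0 : 0 ≤ Y := YY_nonneg H q _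
    have hY3 : Y ≤ 3 * H := YY_le H q _
    have hρY : ρ * Y ≤ 3 / 4 * (3 * H) := mul_le_mul hρ1 hY3 hY0 (by norm_num)
    have hρY0 : 0 ≤ ρ * Y := mul_nonneg hρ hY0
    have e1 : (2 * (H : ℝ) + 1) ^ 2 ≤ 9 * (H : ℝ) ^ 2 := by nlinarith
    have e2 : (2 * Y + 1) * (2 * (ρ * Y) + 1) ≤ 4 * ρ * Y ^ 2 + 13 * H := by nlinarith
    calc (2 * (H : ℝ) + 1) * (2 * Y + 1) * ((2 * H + 1) * (2 * (ρ * Y) + 1))
        = (2 * (H : ℝ) + 1) ^ 2 * ((2 * Y + 1) * (2 * (ρ * Y) + 1)) := by ring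
      _ ≤ 9 * (H : ℝ) ^ 2 * (4 * ρ * Y ^ 2 + 13 * H) :=
        mul_le_mul e1 e2 (by positivity) (by positivity)
  refine (sum_le_sum hterm).trans ?_
  rw [← mul_sum, sum_add_distrib, ← mul_sum, sum_const, nsmul_eq_mul, cardI0]
  have hS1 : ∑ p ∈ Icc (-(P : ℤ)) P, YY H q p.natAbs ^ 2 ≤ 162 * (H : ℝ) ^ 2 * q := by
    have h1 := sumSym P (fun k => YY H q k ^ 2) (fun k => by positivity)
    have h2 := sumYY H q (P + 1) hq
    linarith
  have hS2 : 4 * ρ * ∑ p ∈ Icc (-(P : ℤ)) P, YY H q p.natAbs ^ 2 ≤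
      4 * ρ * (162 * (H : ℝ) ^ 2 * q) := mul_le_mul_of_nonneg_left hS1 (by positivity)
  have hS3 : (2 * (P : ℝ) + 1) * (13 * H) ≤ 65 * t * q * H := by
    have h3 : (1 : ℝ) ≤ t * q := by nlinarith
    have h4 : (2 * (P : ℝ) + 1) ≤ 5 * (t * q) := by linarith
    have h5 := mul_le_mul_of_nonneg_right h4 (show (0 : ℝ) ≤ 13 * H by positivity)
    linarith
  calc 9 * (H : ℝ) ^ 2 * (4 * ρ * ∑ p ∈ Icc (-(P : ℤ)) P, YY H q p.natAbs ^ 2 +
        (2 * (P : ℝ) + 1) * (13 * H))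
      ≤ 9 * (H : ℝ) ^ 2 * (4 * ρ * (162 * (H : ℝ) ^ 2 * q) + 65 * t * q * H) :=
        mul_le_mul_of_nonneg_left (add_le_add hS2 hS3) (by positivity)
    _ = 5832 * (ρ * q * (H : ℝ) ^ 4) + 585 * (t * q * (H : ℝ) ^ 3) := by ring
    _ ≤ 10000 * (ρ * q * (H : ℝ) ^ 4 + t * q * (H : ℝ) ^ 3) := by
        have h6 : 0 ≤ ρ * q * (H : ℝ) ^ 4 := by positivity
        have h7 : 0 ≤ t * q * (H : ℝ) ^ 3 := by positivity
        linarith

end Pool.Agent.Helper48.SM
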